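import Pool.Agent.Helper97.Kap.Free
import Pool.Agent.Helper97.Kap.Param
import Pool.Agent.Helper97.Kap.NotS

set_option autoImplicit false

namespace Pool.Agent.Results.MP_d62ce9_gt.NotClassical

open Pool.Agent.Helper97.Kap

/-- Sanity check: the trivial group is a classical Schottky-type group (no half-spaces). -/
lemma classical_bot (n : ℕ) : IsClassicalSchottky (⊥ : Subgroup (Hyp n ≃ᵢ Hyp n)) := by
  refine ⟨0, fun _ => ∅, fun _ => 1, fun j => ?_, fun i => ?_, fun i => i.elim0, fun x => ?_, ?_⟩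
  · rcases j with j | j <;> exact j.elim0
  · rcases i with i | i <;> exact i.elim0
  · refine ⟨1, Subgroup.one_mem _, fun j => ?_⟩
    rcases j with j | j <;> exact j.elim0
  · intro g hg hne
    exact absurd (Subgroup.mem_bot.mp hg) hne

/-- There is a discrete, torsion-free, finitely generated group `G` of isometries of `ℍ⁴` without
`ℤ²` (in fact free of rank two), whose conical limit set has Hausdorff dimension less than one, and
which is not a classical Schottky-type group. -/
theorem result : ∃ G : Subgroup (Hyp 4 ≃ᵢ Hyp 4),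
    IsDiscreteGroup G ∧ IsTorsionFreeGroup G ∧ IsFinGen G ∧ HasNoZSquare G ∧ IsFreeOfRankTwo G ∧
    dimH (conicalLimitSet G) < 1 ∧ ¬ IsClassicalSchottky G := by
  obtain ⟨P⟩ := exists_par
  have hsum := P.poincare
  have hpos : (0 : NNReal) < 3 / 4 := by positivity
  have hcount : Countable P.G := by
    obtain ⟨e⟩ := P.equiv_free
    exact e.symm.injective.countable
  obtain ⟨e⟩ := P.equiv_free
  have hdim : dimH (conicalLimitSet P.G) ≤ ((3 / 4 : NNReal) : ENNReal) :=
    dimH_conical_le P.G (3 / 4) hpos hsum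
  have hfree : IsFreeGroup P.G := IsFreeGroup.ofMulEquiv e
  refine ⟨P.G, discrete_of_poincare P.G (3 / 4) hpos hsum, ?_, ?_, ?_, ?_, ?_, ?_⟩
  · intro g hg k hk h
    have h1 : (⟨g, hg⟩ : P.G) ^ k = 1 := Subtype.ext h
    have h2 : (e.symm ⟨g, hg⟩) ^ k = 1 := by rw [← map_pow, h1, map_one]
    have h3 : e.symm ⟨g, hg⟩ = 1 := (pow_eq_one_iff_left hk.ne').mp h2
    have h4 : (⟨g, hg⟩ : P.G) = 1 := by
      rw [← e.apply_symm_apply ⟨g, hg⟩, h3, map_one]
    exact congrArg Subtype.val h4
  · unfold IsFinGen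
    rw [Group.fg_iff_subgroup_fg]
    classical
    refine ⟨insert P.g₁ {P.g₂}, ?_⟩
    unfold Par.G
    rw [Finset.coe_insert, Finset.coe_singleton]
  · rintro ⟨f, hf⟩
    exact no_Z2 f hf
  · exact ⟨(FreeGroup.freeGroupCongr finTwoEquiv).trans e⟩
  · refine lt_of_le_of_lt hdim ?_
    have : (3 / 4 : NNReal) < 1 := by
      rw [div_lt_one (by norm_num)]
      norm_num
    exact_mod_cast this
  · intro h
    obtain ⟨k, u, v, hT⟩ := tiling_of_schottky h
    exact P.no_tiling hT

end Pool.Agent.Results.MP_d62ce9_gt.NotClassical
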